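import Pool.Agent.Work.MP_7f9bcc_LIN.Main

set_option autoImplicit false

/-!
MP_7f9bcc_al, partial answer to Q1.

`ball S n` is the set of products of at most `n` elements of `S ∪ S⁻¹`, `autGrowth S n` the number
of orbits of `Aut G` which meet it.  Let `G` be generated by the finite set `S`, let `H` be a
subgroup of finite index and `ρ` a homomorphism of `H` to `GL_d(K)`, `K` a field of characteristic
zero.  If the image of `ρ` is not virtually solvable then the growth function is at least
`exp (κ (log n) ^ 2)` for a constant `κ > 0` and all large `n`.  If it is not virtually abelian then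
the growth function is superlinear.  So a group which answers Q1 positively is not linear over a
field of characteristic zero, and all its linear images in characteristic zero are virtually
abelian.
-/

namespace Pool.Agent.Results.MP_7f9bcc_al.LinearImages

open Pool.Agent.Work.LAG

/-- A group with an abelian subgroup of finite index. -/
def VirtuallyAbelian (Q : Type) [Group Q] : Prop :=
  ∃ B : Subgroup Q, B.FiniteIndex ∧ ∀ x ∈ B, ∀ y ∈ B, x * y = y * x

/-- A group with a solvable subgroup of finite index. -/
def VirtuallySolvable (Q : Type) [Group Q] : Prop :=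
  ∃ B : Subgroup Q, B.FiniteIndex ∧ Group.IsSolvable B

/-- Let `S` be a finite generating set of the group `G`, `H` a subgroup of finite index and `ρ` a
representation of `H` of degree `d` over a field of characteristic zero.  (a) If the image of `ρ` is
not virtually solvable then the number of `Aut G`-orbits in `G` which meet the ball of radius `n` is
at least `exp (κ (log n) ^ 2)`, for some `κ > 0` and all large `n`.  (b) If the image of `ρ` is not
virtually abelian then this number is at least `C * n` for all large `n`, for each constant `C`. -/
theorem result (G : Type) [Group G] (S : Set G) (hSf : S.Finite) (hS : Subgroup.closure S = ⊤)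
    (H : Subgroup G) (hH : H.FiniteIndex) (K : Type) [Field K] [CharZero K] (d : ℕ)
    (ρ : H →* Matrix.GeneralLinearGroup (Fin d) K) :
    (¬ VirtuallySolvable ρ.range → ∃ (κ : ℝ) (n₀ : ℕ), 0 < κ ∧
      ∀ n, n₀ ≤ n → Real.exp (κ * Real.log n ^ 2) ≤ autGrowth S n) ∧
    (¬ VirtuallyAbelian ρ.range → ∀ C : ℕ, ∃ n₀ : ℕ, ∀ n ≥ n₀, C * n ≤ autGrowth S n) :=
  ⟨fun h => Pool.Agent.Work.LIN.t_TOP G S hSf hS H hH K d ρ h,
    fun h => Pool.Agent.Work.LIN.fin_b Pool.Agent.Work.LIN.t_TOP G S hSf hS H hH K d ρ h⟩

end Pool.Agent.Results.MP_7f9bcc_al.LinearImages
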