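import Pool.Agent.Work.MP_7f9bcc_LAG.TOP

set_option autoImplicit false

/-!
MP_7f9bcc_al, partial answer to Q1.

`ball S n` is the set of products of at most `n` elements of `S ∪ S⁻¹`, `autGrowth S n` the number
of orbits of `Aut G` which meet it.  The theorem says that the growth function is superlinear as
soon as some subgroup of finite index has a solvable quotient which is not virtually abelian.  In
particular (`H` a solvable subgroup of finite index, `Q = H`) a finitely generated virtually
solvable group with linear automorphic growth is virtually abelian, so that no finitely presented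
virtually solvable group answers Q1 positively.
-/

namespace Pool.Agent.Results.MP_7f9bcc_al.SolvableQuotients

open Pool.Agent.Work.LAG

/-- A group with an abelian subgroup of finite index. -/
def VirtuallyAbelian (Q : Type) [Group Q] : Prop :=
  ∃ B : Subgroup Q, B.FiniteIndex ∧ ∀ x ∈ B, ∀ y ∈ B, x * y = y * x

/-- Let `S` be a finite generating set of the group `G`, `H` a subgroup of finite index, and `f` a
homomorphism of `H` onto a solvable group `Q` which is not virtually abelian.  Then the number of
`Aut G`-orbits in `G` which meet the ball of radius `n` is at least `C * n` for all large `n`, for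
each constant `C`. -/
theorem result (G : Type) [Group G] (S : Set G) (hSf : S.Finite) (hS : Subgroup.closure S = ⊤)
    (H : Subgroup G) (hH : H.FiniteIndex) (Q : Type) [Group Q] [Group.IsSolvable Q]
    (f : H →* Q) (hf : Function.Surjective f) (hQ : ¬ VirtuallyAbelian Q) :
    ∀ C : ℕ, ∃ n₀ : ℕ, ∀ n ≥ n₀, C * n ≤ autGrowth S n :=
  main G S hSf hS H hH Q f hf hQ

end Pool.Agent.Results.MP_7f9bcc_al.SolvableQuotients
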